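import Pool.Agent.Run7.h45.AmnG

/-!
# The Alperin–McKay–Navarro conjecture: all or nothing, in one sequence of groups

`O` is a valuation subring of `ℂ` whose maximal ideal contains the odd prime `p`; it defines the
`p`-blocks of finite groups. Let `Γ_n = M_n(𝔽₂) ⋊ S_n` be the semidirect product of the additive
group of the `n × n` matrices over `𝔽₂` with `S_n`, which permutes the rows and the columns.

Proof. By the starting result `GaloisStableCyclic` it is sufficient to show
`|Irr₀(B)^L| = |Irr₀(b)^L|` for the blocks `B` which are equal to all their Galois conjugates and the
subgroups `L` of `p`-power index in the group `H` of `G` with cyclic quotient `H/L`. For some constant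
`c` and all `n ≥ c k` the group `G^k` is the stabiliser in `S_n` of a character `θ` of `V = M_n(𝔽₂)`.
The values of `θ` are `±1`, so that the Clifford correspondence between the characters of `Γ_n` above
the orbit of `θ` and those of `G^k` commutes with all field automorphisms. As `p` does not divide `|V|`,
it maps blocks to blocks, Galois-stable ones to Galois-stable ones, defect groups to defect groups,
Brauer correspondents to Brauer correspondents and preserves the heights. The group `H` of `Γ_n` is
smaller than the one of `G`, but both act in the same way on the characters of `G`, and the
intersection `L'` of `L` with it again has `p`-power index and a cyclic quotient. So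
`|Irr₀(B)^L|^k` and `|Irr₀(b)^L|^k` are the numbers of the characters of height zero fixed by `L'` in a
block of `Γ_n` and its Brauer correspondent.
-/

set_option autoImplicit false

namespace Pool.Agent.Results.MP_7f1e7e_al.AllOrNothing

open Filter Run7.h45 Pool.Agent.N19.RB Pool.Agent.Q259.BW

/-- **All or nothing.** Let `p` be an odd prime and `C` a class of groups closed under isomorphisms,
finite powers and direct products with elementary abelian `p`-groups. The Alperin–McKay–Navarro
conjecture holds for all `p`-blocks of all finite groups with defect groups in `C` if and only if for
every `ε > 0` there are infinitely many `n` such that for all Galois-stable blocks `B` of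
`M_n(𝔽₂) ⋊ S_n` with defect group in `C` and all `L ≤ H` such that `H/L` is a cyclic `p`-group the
numbers `|Irr₀(B)^L|` and `|Irr₀(b)^L|` differ at most by the factor `exp (ε n)`. -/
theorem result (p : ℕ) [Fact p.Prime] (hp2 : p ≠ 2) (O : ValuationSubring ℂ)
    (hpO : (p : ℂ) ∈ O.nonunits) (C : (D : Type) → Group D → Prop) (hC : ElClosed p C) :
    (∀ X : Dat, X.IsBrauer p O → C X.D inferInstance → AMN p X) ↔
      ∀ ε : ℝ, 0 < ε → ∃ᶠ n : ℕ in atTop, AMNWithin p O C (MatGrp 2 n) (Real.exp (ε * n)) :=
  amn_iff_mat hpO hp2 hC

end Pool.Agent.Results.MP_7f1e7e_al.AllOrNothing
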