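import Pool.Agent.Run7.h45.AmnG
import Pool.Agent.Run7.h45.Univ

/-!
# The Alperin–McKay–Navarro conjecture and perfect groups with alternating composition factors

`O` is a valuation subring of `ℂ` whose maximal ideal contains the odd prime `p`; it defines the
`p`-blocks of finite groups. For a subgroup `H` of the alternating group `A_n` let `Z(A_n/H)` be the
group of the functions `A_n/H → 𝔽₂` with sum `0`, and let `Z(A_n/H) ⋊ A_n` be its extension by `A_n`,
which permutes the cosets.

Proof. As for the groups `M_n(𝔽₂) ⋊ S_n`, with the evaluation at the trivial coset as the character of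
`Z(A_n/H)`, where `H ≅ G^k`. The Clifford correspondence commutes with all field automorphisms.
-/

set_option autoImplicit false

namespace Pool.Agent.Results.MP_7f1e7e_al.PerfectGroups

open Filter Run7.h45 Pool.Agent.N19.RB Pool.Agent.Q259.BW

/-- Let `p` be an odd prime. (1) For `n ≥ 5` and all subgroups `H ≤ A_n` the group `Z(A_n/H) ⋊ A_n` is
perfect. (2) Let `C` be a class of groups closed under isomorphisms, finite powers and direct products
with elementary abelian `p`-groups. The Alperin–McKay–Navarro conjecture holds for all `p`-blocks of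
all finite groups with defect groups in `C` if and only if for every `ε > 0` there are infinitely many
`n` such that for all `H ≤ A_n`, all Galois-stable blocks `B` of `Z(A_n/H) ⋊ A_n` with defect group in
`C` and all `L` of `p`-power index with cyclic quotient the numbers `|Irr₀(B)^L|` and `|Irr₀(b)^L|`
differ at most by the factor `exp (ε n)`. -/
theorem result (p : ℕ) [Fact p.Prime] (hp2 : p ≠ 2) (O : ValuationSubring ℂ)
    (hpO : (p : ℂ) ∈ O.nonunits) :
    (∀ n : ℕ, 5 ≤ n → ∀ H : Subgroup (alternatingGroup (Fin n)),
      commutator (ZSGrp 2 (alternatingGroup (Fin n)) H) = ⊤) ∧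
    ∀ C : (D : Type) → Group D → Prop, ElClosed p C →
      ((∀ X : Dat, X.IsBrauer p O → C X.D inferInstance → AMN p X) ↔
        ∀ ε : ℝ, 0 < ε → ∃ᶠ n : ℕ in atTop, ∀ H : Subgroup (alternatingGroup (Fin n)),
          AMNWithin p O C (ZSGrp 2 (alternatingGroup (Fin n)) H) (Real.exp (ε * n))) :=
  ⟨fun n hn H => perfect_alt hn H, fun C hC => amn_iff_alt hpO hp2 hC⟩

end Pool.Agent.Results.MP_7f1e7e_al.PerfectGroups
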