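import Pool.Agent.Run7.h45.PV6

/-!
# The Alperin–McKay–Navarro conjecture and perfect primitive permutation groups

`O` is a valuation subring of `ℂ` whose maximal ideal contains the odd prime `p`; it defines the
`p`-blocks of finite groups.

Proof. Let `E` be the group of order `5` of automorphisms of the additive group `W` of `F_16`. Let `G`
be a finite group, embed it into an alternating group `K = A_n` with `n ≥ 5`, let `P = A_5 ^ s` and
`m = |P| = 60 ^ s`. The wreath product `X = K ≀ P` acts transitively on `Ω = K × P`, and `Ω` has a
colouring with three colours such that the elements of `X` which preserve it form a subgroup isomorphic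
to `G ^ m`. Let `E₀` be the group of the functions `Ω → E` with product `1`, and `L = E₀ ⋊ X`; it acts
on `V = W ^ Ω`. The group `H = V ⋊ L` is perfect, `V` is its unique minimal normal subgroup, and `L` is
a maximal subgroup with trivial core. The colouring gives a rational-valued character of `V` with
stabiliser `G ^ m` in `L`, since the characters of `W` contain three regular `E`-orbits, and `|H|` is at
most exponential in `m`. The Clifford correspondence commutes with all field automorphisms, and blocks,
defect groups, heights and Brauer correspondents correspond. The numbers of the characters of height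
zero fixed by a group of field automorphisms in `B^{⊗m}` and in its Brauer correspondent are the `m`-th
powers of those for `B` and `b`. Now use the starting result `GaloisStableCyclic`.
-/

set_option autoImplicit false

namespace Pool.Agent.Results.MP_7f1e7e_al.PrimitiveGroups

open Run7.h45 Pool.Agent.N19.RB Pool.Agent.Q259.BW

/-- `H` is perfect and has a maximal subgroup `M` with trivial core and an abelian normal subgroup `V`
of order a power of `q` which is a complement of `M`. For finite `H` this means that `H` is isomorphic
to a perfect primitive permutation group of affine type whose degree is a power of `q`. -/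
def PerfectPrimitive (q : ℕ) (H : Type) [Group H] : Prop :=
  commutator H = ⊤ ∧ ∃ V M : Subgroup H, IsCoatom M ∧ M.normalCore = ⊥ ∧ V.Normal ∧
    (∀ x ∈ V, ∀ y ∈ V, x * y = y * x) ∧ V.IsComplement' M ∧ ∃ k : ℕ, Nat.card V = q ^ k

/-- **The Alperin–McKay–Navarro conjecture and perfect primitive permutation groups.** Let `p` be an odd
prime and let `C` be a class of groups closed under isomorphisms, finite powers and direct products with
elementary abelian `p`-groups. The Alperin–McKay–Navarro conjecture holds for all `p`-blocks of all
finite groups with defect groups in `C` if and only if for every `ε > 0`, all perfect primitive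
permutation groups `H` of affine type and of `2`-power degree of sufficiently large order, all
Galois-stable blocks `B` of `H` with defect group in `C` and all `L` of `p`-power index with cyclic
quotient the numbers `|Irr₀(B)^L|` and `|Irr₀(b)^L|` differ at most by the factor `|H| ^ ε`. -/
theorem result (p : ℕ) [Fact p.Prime] (hp2 : p ≠ 2) (O : ValuationSubring ℂ)
    (hpO : (p : ℂ) ∈ O.nonunits) (C : (D : Type) → Group D → Prop) (hC : ElClosed p C) :
    (∀ X : Dat, X.IsBrauer p O → C X.D inferInstance → AMN p X) ↔
      ∀ ε : ℝ, 0 < ε → ∃ n₀ : ℕ, ∀ (H : Type) [Group H] [Finite H], PerfectPrimitive 2 H →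
        n₀ ≤ Nat.card H → AMNWithin p O C H ((Nat.card H : ℝ) ^ ε) :=
  PV.amn_prim PV.seed2 PV.card_W4 PV.seed2_gal hpO
    (fun h => hp2 ((Nat.prime_dvd_prime_iff_eq Fact.out Nat.prime_two).mp h)) hC

end Pool.Agent.Results.MP_7f1e7e_al.PrimitiveGroups
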