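import Pool.Agent.Run7.h45.Den6

/-!
# The Alperin–McKay–Navarro conjecture: rare exceptions do not exist

`O` is a valuation subring of `ℂ` whose maximal ideal contains the odd prime `p`; it defines the
`p`-blocks of finite groups. Let `Γ_n = M_n(𝔽₂) ⋊ S_n` be the semidirect product of the additive
group of the `n × n` matrices over `𝔽₂` with `S_n`, which permutes the rows and the columns
simultaneously.

Outline. By the starting result `GaloisStableCyclic` a counterexample yields a block `B` of a finite
group `G`, equal to all its Galois conjugates, and a subgroup `L` of `p`-power index in the group `H` of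
`G`, with `H/L` cyclic, such that `|Irr₀(B)^L| ≠ |Irr₀(b)^L|`. For all large `n` the group `G` embeds in
`S_n` in such a way that its image is the stabilizer of at least `2 ^ (n² - c n log₂ n)` matrices in
`M_n(𝔽₂)` in different orbits (`Run7.h45.many`). The linear characters of `M_n(𝔽₂)` given by these
matrices have the values `±1`, so that the Clifford correspondences above them commute with all field
automorphisms. Over each of them there is one Galois-stable block of `Γ_n` corresponding to `B`, with
the same numbers for a subgroup `L'` of the group `H` of `Γ_n` (which does not depend on the matrix).
Different orbits give different blocks.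
-/

set_option autoImplicit false

namespace Pool.Agent.Results.MP_7f1e7e_al.RareExceptions

open Filter Run7.h45 Pool.Agent.N19.RB Pool.Agent.Q259.BW

/-- **Rare exceptions do not exist.** Let `p` be an odd prime and `C` a class of groups closed under
isomorphisms, finite powers and direct products with elementary abelian `p`-groups. The
Alperin–McKay–Navarro conjecture holds for all `p`-blocks of all finite groups with defect groups in
`C` if and only if for every `c` there are infinitely many `n` such that the proportion of the blocks `B`
of `M_n(𝔽₂) ⋊ S_n` with `AMNFails p O C B` among all blocks is less than `n ^ (-c n)`. -/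
theorem result (p : ℕ) [Fact p.Prime] (hp2 : p ≠ 2) (O : ValuationSubring ℂ)
    (hpO : (p : ℂ) ∈ O.nonunits) (C : (D : Type) → Group D → Prop) (hC : ElClosed p C) :
    (∀ X : Dat, X.IsBrauer p O → C X.D inferInstance → AMN p X) ↔
      ∀ c : ℕ, ∃ᶠ n : ℕ in atTop,
        (BlockSets O (MatGrp 2 n) (AMNFails p O C)).ncard * n ^ (c * n) <
          (BlockSets O (MatGrp 2 n) fun _ => True).ncard :=
  amn_iff_dens hpO hp2 hC

end Pool.Agent.Results.MP_7f1e7e_al.RareExceptions
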